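import Mathlib
import Pool.Agent.R772.BridgeD

/-!
# Closed two-forms with nonnegative top power: a necessary and sufficient criterion

`X` is a closed manifold of dimension `2 (m + 1)` oriented by a volume form, and `σ` is a closed
two-form with `σ ^ (m + 1)` nonnegative; `Deg m σ` is the set where `σ ^ (m + 1)` vanishes. No
almost complex structure is used, and there is no condition on the degenerate set or on the rank of
`σ`. For a closed two-form `ζ` the following are equivalent:

1. there are a one-form `α` and `c > 0` such that the forms `σ + t (ζ + dα)`, `0 < t ≤ c`, are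
   positive symplectic forms, with top powers at least `c t vol`;
2. for some one-form `α` the form `(ζ + dα) ∧ σ ^ m` is positive over `Deg m σ`;
3. every closed current of the form `η ↦ ∫ (η ∧ σ ^ m / vol) dμ`, where `μ` is a nonzero finite
   measure carried by `Deg m σ`, is positive on `ζ`.

With `ζ = 0`: the class of `σ` contains symplectic forms `σ + t dα` with top power at least `c t vol`
if and only if the degenerate set carries no closed current of this form; then, by the theorem with
other `ζ`, all classes near the one of `σ` contain symplectic forms. (At the points where `σ ^ m`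
vanishes the density of `η ∧ σ ^ m` is zero, so the criterion fails if there are such points.)
-/

set_option autoImplicit false

open Set MeasureTheory
open scoped Manifold ContDiff

namespace Pool.Agent.Results.MP_9986fc_gt.DegenerateCurrents

open Pool.Agent.Y501.SYP
open Pool.Agent.R772.SYK
open Pool.Agent.R772.SYF
open Pool.Agent.R772.SYD

theorem result (m d : ℕ) (hd : d = 2 * (m + 1)) (X : Type) [TopologicalSpace X]
    [ChartedSpace (ES d) X] [IsManifold 𝓘(ℝ, ES d) ∞ X] [CompactSpace X] [T2Space X]
    [MeasurableSpace X] [BorelSpace X] (vol : TopForm (ES d) X m) (hvol : IsVolume vol)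
    (σ ζ : Form (ES d) X 2) (hσ : IsClosed2 σ) (hζ : IsClosed2 ζ) (hnn : TopNonneg vol σ) :
    List.TFAE [
      ∃ (α : Form (ES d) X 1) (ρ : Form (ES d) X 2) (c : ℝ), ExactPair α ρ ∧
        SymplecticUpTo vol σ (addF ζ ρ) c,
      ∃ (α : Form (ES d) X 1) (ρ : Form (ES d) X 2), ExactPair α ρ ∧
        PosOnDeg vol σ (addF ζ ρ),
      ∀ μ : Measure X, IsClosedCurrent vol σ μ → 0 < ∫ x, density vol σ ζ x ∂μ] :=
  duality hd vol hvol σ ζ hσ hζ hnn

end Pool.Agent.Results.MP_9986fc_gt.DegenerateCurrents
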