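import Mathlib
import Pool.Agent.R772.BridgeK

/-!
# Closed two-forms with nonnegative top power

`X` is a closed manifold of dimension `d = 2 (m + 1)` oriented by a volume form, `σ` is a closed
two-form with `σ ^ (m + 1)` nonnegative, and `Deg m σ` is the set where `σ ^ (m + 1)` vanishes.
No almost complex structure is used. If the exceptional sets are small then `σ + t (ζ + dα)` is a
positive symplectic form for some one-form `α` and all small positive `t`. The case `ζ = 0` with
constant `f` gives symplectic forms in the class of `σ`.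
-/

set_option autoImplicit false

open Set MeasureTheory
open scoped Manifold ContDiff

namespace Pool.Agent.Results.MP_9986fc_gt.NonnegativeTopPower

open Pool.Agent.Y501.SYP
open Pool.Agent.R772.SYK

theorem result (m d : ℕ) (hd : d = 2 * (m + 1)) (X : Type) [TopologicalSpace X]
    [ChartedSpace (ES d) X] [IsManifold 𝓘(ℝ, ES d) ∞ X] [CompactSpace X] [T2Space X]
    (vol : TopForm (ES d) X m) (hvol : IsVolume vol)
    (σ ζ : Form (ES d) X 2) (hσ : IsClosed2 σ) (hζ : IsClosed2 ζ) (hnn : TopNonneg vol σ)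
    (p : ℕ) (Y : Type) [TopologicalSpace Y] [ChartedSpace (ES p) Y]
    [IsManifold 𝓘(ℝ, ES p) ∞ Y] [T2Space Y] (f : X → Y) (hf : KernelMap (W := ES p) m σ f)
    (hcomp : ∀ z ∈ Deg m σ, Good vol σ ζ (Comp m σ f z)) :
    ∃ (α : Form (ES d) X 1) (ρ : Form (ES d) X 2), IsSmooth α ∧ IsSmooth ρ ∧ IsD α ρ ∧
      ∃ t₀ : ℝ, 0 < t₀ ∧ ∀ t : ℝ, 0 < t → t ≤ t₀ →
        IsPosSymplectic vol (comb σ t (addF ζ ρ)) :=
  smallCorank hd vol hvol σ ζ hσ hζ hnn f hf hcomp

end Pool.Agent.Results.MP_9986fc_gt.NonnegativeTopPower
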