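import Mathlib
import Pool.Agent.R772.BridgeM

/-!
# Closed two-forms with nonnegative top power: test sets

`X` is a closed manifold of dimension `2 (m + 1)` oriented by a volume form, and `σ` is a closed
two-form with `σ ^ (m + 1)` nonnegative; `Deg m σ` is the set where `σ ^ (m + 1)` vanishes. A test
set is a nonempty compact subset `C` of `Deg m σ` such that

* the smooth functions on `X`, whose differential vanishes on the kernel of `σ` at the points of
  `C`, are constant on `C` (in particular `C` is connected, and is contained in a fibre of every
  smooth map to a manifold whose differential vanishes on these kernels);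
* `C` is small at none of its points: for `z` in `C` with `σ ^ m ≠ 0` at `z`, the set `C` does not
  have two-dimensional Hausdorff measure zero near `z`, and the smooth functions vanishing on `C`
  have differential zero on the kernel of `σ` at `z`; and `C` is not thin at `z`.

For every closed two-form `ζ`, there are a one-form `α` and `c > 0` such that the forms
`σ + t (ζ + dα)`, `0 < t ≤ c`, are positive symplectic forms with top power at least `c t vol`, if
and only if for every test set `C` there is a one-form `β` such that `(ζ + dβ) ∧ σ ^ m` is
nonnegative over `C` and positive at one point of `C`.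

In particular, if `Deg m σ` is covered by countably many closed sets, the intersections with which
are small at all their points, then such `α` and `c` exist for all closed `ζ`.
-/

set_option autoImplicit false

open Set
open scoped Manifold ContDiff

namespace Pool.Agent.Results.MP_9986fc_gt.TestSets

open Pool.Agent.Y501.SYP
open Pool.Agent.R772.SYK
open Pool.Agent.R772.SYF
open Pool.Agent.R772.SYD
open Pool.Agent.R772.SYM

theorem result (m d : ℕ) (hd : d = 2 * (m + 1)) (X : Type) [TopologicalSpace X]
    [ChartedSpace (ES d) X] [IsManifold 𝓘(ℝ, ES d) ∞ X] [CompactSpace X] [T2Space X]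
    (vol : TopForm (ES d) X m) (hvol : IsVolume vol)
    (σ : Form (ES d) X 2) (hσ : IsClosed2 σ) (hnn : TopNonneg vol σ) :
    (∀ ζ : Form (ES d) X 2, IsClosed2 ζ →
      ((∃ (α : Form (ES d) X 1) (ρ : Form (ES d) X 2) (c : ℝ), ExactPair α ρ ∧
          SymplecticUpTo vol σ (addF ζ ρ) c) ↔
        ∀ C : Set X, TestSet vol σ C → ∃ (α : Form (ES d) X 1) (ρ : Form (ES d) X 2),
          ExactPair α ρ ∧ SemiPos vol σ (addF ζ ρ) C)) ∧
    ∀ F : ℕ → Set X, CountablySmall vol σ F → ∀ ζ : Form (ES d) X 2, IsClosed2 ζ →
      ∃ (α : Form (ES d) X 1) (ρ : Form (ES d) X 2) (c : ℝ), ExactPair α ρ ∧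
        SymplecticUpTo vol σ (addF ζ ρ) c :=
  ⟨fun ζ hζ => tests hd vol hvol σ hσ hnn ζ hζ,
    fun F hF ζ hζ => countable hd vol hvol σ hσ hnn F hF ζ hζ⟩

end Pool.Agent.Results.MP_9986fc_gt.TestSets
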