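import Mathlib
import Pool.Agent.R772.BridgeG

/-!
# Closed two-forms which are weakly taming near their degenerate points

`X` is a closed manifold, `σ` is a closed two-form and `J` is a field of endomorphisms of the
tangent spaces which, at the degenerate points of `σ`, is an almost complex structure and is
continuous, and which is weakly tamed by `σ` near these points. There is no condition on `J` away
from the degenerate points, no condition on null vectors outside the kernels of `σ`, and no
condition at the nondegenerate points. If the exceptional sets are small then `σ + t (ζ + dα)` is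
symplectic for some one-form `α` and all small positive `t`.
-/

set_option autoImplicit false

open Set MeasureTheory
open scoped Manifold ContDiff

namespace Pool.Agent.Results.MP_9986fc_gt.WeakTamingNearKernels

open Pool.Agent.Y501.SYP
open Pool.Agent.R772.SYK
open Pool.Agent.R772.SYG

theorem result (d : ℕ) (X : Type) [TopologicalSpace X] [ChartedSpace (ES d) X]
    [IsManifold 𝓘(ℝ, ES d) ∞ X] [CompactSpace X] [T2Space X]
    (J : End (ES d) X) (σ ζ : Form (ES d) X 2) (hσ : IsClosed2 σ) (hζ : IsClosed2 ζ)
    (hJ : Adapted σ J) (p : ℕ) (Y : Type) [TopologicalSpace Y] [ChartedSpace (ES p) Y]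
    [IsManifold 𝓘(ℝ, ES p) ∞ Y] [T2Space Y] (f : X → Y) (hf : KernelConst (W := ES p) σ f)
    (hcomp : ∀ z ∈ Degen σ, GoodK σ ζ J (CompD σ f z)) :
    ∃ (α : Form (ES d) X 1) (ρ : Form (ES d) X 2), IsSmooth α ∧ IsSmooth ρ ∧ IsD α ρ ∧
      ∃ t₀ : ℝ, 0 < t₀ ∧ ∀ t : ℝ, 0 < t → t ≤ t₀ → IsSymplectic (comb σ t (addF ζ ρ)) := by
  obtain ⟨α, ρ, h1, h2, h3, h4, _⟩ := kernelTaming J σ ζ hσ hζ hJ f hf hcomp
  exact ⟨α, ρ, h1, h2, h3, h4⟩

end Pool.Agent.Results.MP_9986fc_gt.WeakTamingNearKernels
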